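import Pool.Agent.H84.PS.Conic

/-!
MP_325208 (helper46): a quadratic function on a space of dimension three without three collinear zeros has at most
`q + 1` rays of zeros.
-/

set_option autoImplicit false
set_option linter.unusedSectionVars false

open Module Finset
open scoped Classical

namespace H46.PS

variable {F : Type*} [Field F] [Fintype F] {V : Type*} [AddCommGroup V] [Module F V] [Fintype V] [FiniteDimensional F V]

theorem card_nonker (hV : finrank F V = 3) (L : V →ₗ[F] F) :
    (Finset.univ.filter fun v => L v ≠ 0).card ≤ Fintype.card F ^ 2 * (Fintype.card F - 1) := by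
  by_cases hL : L = 0
  · subst hL
    simp
  · have h1 := Module.Dual.finrank_ker_add_one_of_ne_zero (K := F) (f := L) hL
    rw [hV] at h1
    have h2 : Fintype.card (LinearMap.ker L) = Fintype.card F ^ 2 := by
      rw [Module.card_eq_pow_finrank (K := F) (V := LinearMap.ker L)]
      congr 1
      omega
    have h3 : Fintype.card V = Fintype.card F ^ 3 := by
      rw [Module.card_eq_pow_finrank (K := F) (V := V), hV]
    have h4 : (Finset.univ.filter fun v => L v = 0).card = Fintype.card F ^ 2 := by
      rw [← h2]
      exact (Fintype.card_subtype (fun v => L v = 0)).symm.trans (Fintype.card_congr (Equiv.refl _))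
    have h5 := Finset.card_filter_add_card_filter_not (s := (Finset.univ : Finset V)) (fun v => L v = 0)
    rw [Finset.card_univ, h3, h4] at h5
    have hq : 1 ≤ Fintype.card F := Fintype.card_pos
    obtain ⟨k, hk⟩ : ∃ k, Fintype.card F = k + 1 := ⟨Fintype.card F - 1, by omega⟩
    rw [hk] at h5 ⊢
    simp only [ne_eq, Nat.add_sub_cancel]
    nlinarith [h5]

/-- a quadratic function without three collinear zeros has at most `q + 1` rays of zeros -/
theorem card_zeros (hV : finrank F V = 3) {g : V → F} (hs : ∀ (c : F) v, g (c • v) = c ^ 2 * g v)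
    (B : V →ₗ[F] V →ₗ[F] F) (hB : ∀ x y, g (x + y) = g x + g y + B x y) (hA : H84.PS.Arc F g) :
    (Finset.univ.filter fun v => v ≠ 0 ∧ g v = 0).card ≤ (Fintype.card F + 1) * (Fintype.card F - 1) := by
  set Z := Finset.univ.filter fun v : V => v ≠ 0 ∧ g v = 0 with hZ
  rcases Z.eq_empty_or_nonempty with he | ⟨p, hp⟩
  · rw [he]; simp
  have hp' := (Finset.mem_filter.1 hp).2
  obtain ⟨hp0, hgp⟩ := hp'
  set S := Z.filter fun v => v ∉ Submodule.span F {p} with hS
  have hBpp : B p p = 0 := by
    have h1 := hB p p
    have h2 := hs 2 p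
    rw [two_smul, hgp] at h2
    rw [h2, hgp] at h1
    simpa using h1.symm
  have hsym : ∀ x y, B x y = B y x := by
    intro x y
    have h1 := hB x y
    have h2 := hB y x
    rw [add_comm y x] at h2
    linear_combination h2 - h1
  have hBv : ∀ v ∈ S, B p v ≠ 0 := by
    intro v hv
    obtain ⟨h1, h2⟩ := Finset.mem_filter.1 hv
    have h3 := (Finset.mem_filter.1 h1).2
    have h4 := hA p v hp0 h2 hgp h3.2
    rw [hB, hgp, h3.2] at h4
    simpa using h4
  have hgS : ∀ v ∈ S, g v = 0 := fun v hv => (Finset.mem_filter.1 (Finset.mem_filter.1 hv).1).2.2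
  have key : (S ×ˢ (Finset.univ : Finset F)).card ≤ (Finset.univ.filter fun v => B p v ≠ 0).card := by
    refine Finset.card_le_card_of_injOn (fun x => x.1 + x.2 • p) ?_ ?_
    · rintro ⟨v, c⟩ hx
      have hv : v ∈ S := (Finset.mem_product.1 hx).1
      simp only [Finset.coe_filter, Finset.mem_univ, true_and, Set.mem_ofPred_eq]
      rw [map_add, map_smul, hBpp]
      simpa using hBv v hv
    · rintro ⟨v, c⟩ hx ⟨v', c'⟩ hx' heq
      have hv : v ∈ S := (Finset.mem_product.1 hx).1
      have hv' : v' ∈ S := (Finset.mem_product.1 hx').1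
      simp only at heq
      have h1 : v' = v + (c - c') • p := by
        rw [sub_smul, ← add_sub_assoc, heq]; abel
      have h2 := hgS v' hv'
      rw [h1, hB, hs, hgp, hgS v hv, map_smul, hsym v p] at h2
      have h3 : c - c' = 0 := by
        have h4 := hBv v hv
        simp only [smul_eq_mul, mul_zero, zero_add] at h2
        exact (mul_eq_zero.1 h2).resolve_right h4
      have h5 : c = c' := sub_eq_zero.1 h3
      rw [h3, zero_smul, add_zero] at h1
      rw [h1, h5]
  have h1 := key.trans (card_nonker hV (B p))
  rw [Finset.card_product, Finset.card_univ] at h1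
  have hq : 0 < Fintype.card F := Fintype.card_pos
  have h2 : S.card ≤ Fintype.card F * (Fintype.card F - 1) := by
    have : S.card * Fintype.card F ≤ (Fintype.card F * (Fintype.card F - 1)) * Fintype.card F := by
      calc S.card * Fintype.card F ≤ Fintype.card F ^ 2 * (Fintype.card F - 1) := h1
        _ = _ := by ring
    exact Nat.le_of_mul_le_mul_right this hq
  have h3 : Z \ S ⊆ H8.PS.ray F p := by
    intro v hv
    obtain ⟨hv1, hv2⟩ := Finset.mem_sdiff.1 hv
    have h4 : v ∈ Submodule.span F {p} := by
      by_contra hcon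
      exact hv2 (Finset.mem_filter.2 ⟨hv1, hcon⟩)
    obtain ⟨c, rfl⟩ := Submodule.mem_span_singleton.1 h4
    have h5 : c • p ≠ 0 := (Finset.mem_filter.1 hv1).2.1
    exact H8.PS.mem_ray.2 ⟨c, fun h => h5 (by rw [h, zero_smul]), rfl⟩
  have h4 := Finset.card_le_card h3
  rw [H8.PS.card_ray hp0] at h4
  have h5 : (Z \ S).card + S.card = Z.card := Finset.card_sdiff_add_card_eq_card (Finset.filter_subset _ _)
  calc Z.card = (Z \ S).card + S.card := h5.symm
    _ ≤ (Fintype.card F - 1) + Fintype.card F * (Fintype.card F - 1) := add_le_add h4 h2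
    _ = _ := by ring

end H46.PS
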